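import Pool.Agent.X154.HurE

set_option autoImplicit false

/-!
The scaled gap-potential bound for the Hurewicz homomorphism on loops (`m = 1`), for every compact
Riemannian manifold `N`.

Definitions (all in `Pool.Agent.X154.DeRham1`): `ClosedForm 𝓜 N` is the set `Z` of smooth closed
`1`-forms on `N`; `IsC1 𝓜 g` says that the circle map `g` is `C¹`; `circleIntegral 𝓜 g α` is the
integral over the circle of the pullback of `α` under `g`; `scaledGap ε f` is the double arc-length
integral of `ε / |x - y|²` over `d(f(x), f(y)) ≥ ε`.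

The Hurewicz class `Hur f ∈ H_1(N; ℝ)` of a circle map is the function `α ↦ ∫ g^* α` on `Z`, for any
`C¹` map `g` homotopic to `f`; `H_1(N; ℝ)`, the dual of the first de Rham cohomology, is the space of
the functions on `Z` that are linear and vanish on the exact forms, a (finite dimensional) subspace
of the space of all functions `Z → ℝ`, and every norm on it is the restriction of a seminorm on
`Z → ℝ`.

The theorem: there is a homotopy invariant map `Hur` from continuous circle maps to functions on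
`Z`, given on `C¹` maps `g` by `Hur g α = ∫ g^* α`, and there is `ε₀ > 0` such that for every
seminorm `P` on `Z → ℝ` there is `C > 0` with `P (Hur f) ≤ C E_ε(f)` for all `0 < ε < ε₀` and all
continuous `f`.
-/

open Bundle
open scoped ContDiff Manifold Bundle

namespace Pool.Agent.Results.MP_346ebc_an.HurewiczBound

open Pool.Agent.X154.Hur

theorem result {E : Type*} [NormedAddCommGroup E] [NormedSpace ℝ E]
    {H : Type*} [TopologicalSpace H] (𝓜 : ModelWithCorners ℝ E H)
    (N : Type*) [EMetricSpace N] [ChartedSpace H N] [IsManifold 𝓜 ∞ N]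
    [Bundle.RiemannianBundle (fun x : N => TangentSpace 𝓜 x)]
    [IsContMDiffRiemannianBundle 𝓜 ∞ E (fun x : N => TangentSpace 𝓜 x)]
    [IsRiemannianManifold 𝓜 N] [CompactSpace N] :
    ∃ Hur : C(Circle, N) → (ClosedForm 𝓜 N → ℝ),
      (∀ f g : C(Circle, N), f.Homotopic g → Hur f = Hur g) ∧
      (∀ g : C(Circle, N), IsC1 𝓜 g → ∀ α : ClosedForm 𝓜 N,
        Hur g α = circleIntegral 𝓜 g α) ∧
      ∃ ε₀ > 0, ∀ P : Seminorm ℝ (ClosedForm 𝓜 N → ℝ), ∃ C > 0,
        ∀ ε : ℝ, 0 < ε → ε < ε₀ → ∀ f : C(Circle, N),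
          ENNReal.ofReal (P (Hur f)) ≤ ENNReal.ofReal C * scaledGap ε f := by
  have hM1 : IsManifold 𝓜 1 N := IsManifold.of_le (n := ∞) (by simp)
  refine ⟨hur 𝓜, fun f g h => hur_homotopic 𝓜 h, fun g hg α => ?_, ?_⟩
  · exact cint_eq_circleIntegral α hg
  obtain ⟨r1, r2, ρ, hρ, hr2, hL⟩ := Pool.Agent.H259R3.GP.lsc_of_local
    (Pool.Agent.H259R3.GP.local_of_manifold 𝓜 (N := N))
  obtain ⟨ε₀, hε₀, C, hC, F, hF, hmain⟩ := main_pc hρ hr2 hL
  refine ⟨ε₀, hε₀, fun P => ?_⟩
  obtain ⟨M, hM⟩ : ∃ M : ℝ, ∀ φ ∈ F, P (hur 𝓜 φ) ≤ M := by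
    obtain ⟨M, hM⟩ := (hF.image (fun φ => P (hur 𝓜 φ))).bddAbove
    exact ⟨M, fun φ hφ => hM ⟨φ, hφ, rfl⟩⟩
  set M' := max M 0 with hM'
  refine ⟨C * (M' + 1), by positivity, fun ε hε hεε f => ?_⟩
  have key : ∀ l > 0, scaledGap ε f ≤ ENNReal.ofReal l → P (hur 𝓜 f) ≤ C * (M' + 1) * l := by
    intro l hl hle
    have h1 : Pool.Agent.H259R3.GP.gapEnergy ε f ≤ scaledGap ε f := by
      unfold Pool.Agent.H259R3.GP.gapEnergy scaledGap
      refine MeasureTheory.lintegral_mono fun θ => MeasureTheory.lintegral_mono fun φ => ?_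
      dsimp only
      split_ifs with h2 h3
      · exact le_rfl
      · exact absurd h2.le h3
      · exact zero_le
      · exact le_rfl
    obtain ⟨k, hk, p, S, δ, hS, hPC, hhom⟩ := hmain l hl ε hε hεε f (h1.trans hle)
    have h2 : ∀ s ∈ S, P (hurL 𝓜 s) ≤ M' := by
      intro s hs
      obtain ⟨ρ', hρ', hρF⟩ := hS s hs
      rw [← hρ', hurL_mk]
      exact (hM _ hρF).trans (le_max_left _ _)
    have h3 := seminorm_PC 𝓜 P h2 hPC
    rw [hurL_mk, ← hur_homotopic 𝓜 hhom] at h3
    have hM0 : 0 ≤ M' := le_max_right _ _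
    calc P (hur 𝓜 f) ≤ k * M' := h3
      _ ≤ C * l * M' := by gcongr
      _ ≤ C * (M' + 1) * l := by nlinarith [mul_pos hC hl]
  by_cases htop : scaledGap ε f = ⊤
  · rw [htop, ENNReal.mul_top]
    · exact le_top
    · exact (ENNReal.ofReal_pos.mpr (by positivity)).ne'
  · have h1 : P (hur 𝓜 f) ≤ C * (M' + 1) * (scaledGap ε f).toReal := by
      apply le_of_forall_pos_le_add
      intro η hη
      have hc : 0 < C * (M' + 1) := by positivity
      have h2 := key ((scaledGap ε f).toReal + η / (C * (M' + 1))) (by positivity) (by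
        rw [← ENNReal.ofReal_toReal htop]
        apply ENNReal.ofReal_le_ofReal
        rw [ENNReal.ofReal_toReal htop]
        have : 0 < η / (C * (M' + 1)) := by positivity
        linarith)
      calc P (hur 𝓜 f) ≤ C * (M' + 1) * ((scaledGap ε f).toReal + η / (C * (M' + 1))) := h2
        _ = _ := by rw [mul_add, mul_div_cancel₀ _ hc.ne']
    calc ENNReal.ofReal (P (hur 𝓜 f)) ≤ ENNReal.ofReal (C * (M' + 1) * (scaledGap ε f).toReal) :=
          ENNReal.ofReal_le_ofReal h1
      _ = ENNReal.ofReal (C * (M' + 1)) * scaledGap ε f := by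
          rw [ENNReal.ofReal_mul (by positivity), ENNReal.ofReal_toReal htop]

end Pool.Agent.Results.MP_346ebc_an.HurewiczBound
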